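import Mathlib

/-!
# A reverse hypercontractive inequality for sums of two squares

`Psi L S T` is the sum over `n ∈ S`, `m ∈ T` of the product over the primes `p` in the list `L` of the
weights `3 / 4 + [p ∣ n ^ 2 + m ^ 2] (p + 1) / 8`.
-/

set_option autoImplicit false

namespace Pool.Agent.Q247.ET

open Finset

instance instNeZeroPrimes (p : Nat.Primes) : NeZero (p : ℕ) := ⟨p.2.ne_zero⟩

/-- The weight of a prime. -/
noncomputable def wt (p : Nat.Primes) (k : ℕ) : ℝ :=
  3 / 4 + if (p : ℕ) ∣ k then (((p : ℕ) : ℝ) + 1) / 8 else 0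

/-- The product of the weights. -/
noncomputable def wts (L : List Nat.Primes) (k : ℕ) : ℝ := (L.map fun p => wt p k).prod

lemma wt_pos (p : Nat.Primes) (k : ℕ) : 0 < wt p k := by
  unfold wt
  split_ifs <;> positivity

lemma wts_nonneg (L : List Nat.Primes) (k : ℕ) : 0 ≤ wts L k := by
  unfold wts
  induction L with
  | nil => simp
  | cons p L ih =>
    rw [List.map_cons, List.prod_cons]
    exact mul_nonneg (wt_pos p k).le ih

lemma wts_cons (p : Nat.Primes) (L : List Nat.Primes) (k : ℕ) :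
    wts (p :: L) k = wt p k * wts L k := by
  simp [wts]

/-- The bilinear form. -/
noncomputable def Psi (L : List Nat.Primes) (S T : Finset ℕ) : ℝ :=
  ∑ n ∈ S, ∑ m ∈ T, wts L (n ^ 2 + m ^ 2)

/-- The elements of `S` whose square is `s` modulo `p`. -/
noncomputable def cl (p : Nat.Primes) (S : Finset ℕ) (s : ZMod (p : ℕ)) : Finset ℕ :=
  S.filter fun n => (n : ZMod (p : ℕ)) ^ 2 = s

/-- The sum of the square roots of the sizes of the classes. -/
noncomputable def Th : List Nat.Primes → Finset ℕ → ℝ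
  | [], S => Real.sqrt S.card
  | p :: L, S => ∑ s : ZMod (p : ℕ), Th L (cl p S s)

lemma Th_nonneg (L : List Nat.Primes) (S : Finset ℕ) : 0 ≤ Th L S := by
  induction L generalizing S with
  | nil => exact Real.sqrt_nonneg _
  | cons p L ih => exact Finset.sum_nonneg fun s _ => ih _

lemma Th_empty (L : List Nat.Primes) : Th L ∅ = 0 := by
  induction L with
  | nil => simp [Th]
  | cons p L ih =>
    unfold Th
    refine Finset.sum_eq_zero fun s _ => ?_
    rw [show cl p ∅ s = ∅ from Finset.filter_empty _]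
    exact ih

/-- The number of squares modulo `p`, as a real number. -/
noncomputable def qq (p : Nat.Primes) : ℝ := (((p : ℕ) : ℝ) + 1) / 2

lemma qq_pos (p : Nat.Primes) : 0 < qq p := by
  unfold qq
  positivity

/-- The squares modulo `p`. -/
noncomputable def sqs (p : Nat.Primes) : Finset (ZMod (p : ℕ)) :=
  Finset.univ.image fun x : ZMod (p : ℕ) => x ^ 2

lemma sqs_card (p : Nat.Primes) (h : (p : ℕ) % 4 = 1) : ((sqs p).card : ℝ) ≤ qq p := by
  have h1 : sqs p ⊆ (Finset.range (((p : ℕ) + 1) / 2)).image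
      (fun k : ℕ => ((k : ZMod (p : ℕ))) ^ 2) := by
    intro z hz
    unfold sqs at hz
    rw [Finset.mem_image] at hz ⊢
    obtain ⟨x, _, rfl⟩ := hz
    by_cases hx : x.val < ((p : ℕ) + 1) / 2
    · exact ⟨x.val, Finset.mem_range.mpr hx, by simp⟩
    · refine ⟨(p : ℕ) - x.val, Finset.mem_range.mpr ?_, ?_⟩
      · have := ZMod.val_lt x
        omega
      · have hlt := (ZMod.val_lt x).le
        rw [Nat.cast_sub hlt]
        simp
  have h2 : (sqs p).card ≤ ((p : ℕ) + 1) / 2 := by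
    refine (Finset.card_le_card h1).trans ?_
    exact Finset.card_image_le.trans (by simp)
  have h3 : 2 * (sqs p).card ≤ (p : ℕ) + 1 := by omega
  have h4 : (2 : ℝ) * ((sqs p).card : ℝ) ≤ ((p : ℕ) : ℝ) + 1 := by exact_mod_cast h3
  unfold qq
  linarith

lemma sqs_neg (p : Nat.Primes) (h : (p : ℕ) % 4 = 1) (s : ZMod (p : ℕ)) (hs : s ∈ sqs p) :
    -s ∈ sqs p := by
  have hp : Fact (p : ℕ).Prime := ⟨p.2⟩
  obtain ⟨i, hi⟩ := (ZMod.exists_sq_eq_neg_one_iff (p := (p : ℕ))).mpr (by omega)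
  unfold sqs at hs ⊢
  rw [Finset.mem_image] at hs ⊢
  obtain ⟨x, _, rfl⟩ := hs
  refine ⟨i * x, Finset.mem_univ _, ?_⟩
  rw [mul_pow, sq i, ← hi]
  ring

/-- One coordinate. -/
lemma one_coord (p : Nat.Primes) (h : (p : ℕ) % 4 = 1) (u v : ZMod (p : ℕ) → ℝ)
    (hu : ∀ s, 0 ≤ u s) (hv : ∀ s, 0 ≤ v s) (hu0 : ∀ s, s ∉ sqs p → u s = 0)
    (hv0 : ∀ s, s ∉ sqs p → v s = 0) :
    (∑ s, u s) ^ 2 * (∑ s, v s) ^ 2 / qq p ^ 2 ≤
      3 / 4 * (∑ s, u s ^ 2) * (∑ s, v s ^ 2) + qq p / 4 * ∑ s, u s ^ 2 * v (-s) ^ 2 := by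
  classical
  set q := qq p with hq
  have hq0 : 0 < q := qq_pos p
  have hN := sqs_card p h
  rw [← hq] at hN
  set N : ℝ := ((sqs p).card : ℝ) with hNdef
  set m := (∑ s, u s) / q with hm
  set n := (∑ s, v s) / q with hn
  have hm0 : 0 ≤ m := div_nonneg (Finset.sum_nonneg fun s _ => hu s) hq0.le
  have hn0 : 0 ≤ n := div_nonneg (Finset.sum_nonneg fun s _ => hv s) hq0.le
  have hsu : ∑ s, u s = q * m := by rw [hm]; field_simp
  have hsv : ∑ s, v s = q * n := by rw [hn]; field_simp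
  set U := ∑ s, u s ^ 2 with hU
  set V := ∑ s, v s ^ 2 with hV
  set W := ∑ s, u s ^ 2 * v (-s) ^ 2 with hW
  set C := ∑ s, u s * v (-s) with hC
  have hv'0 : ∀ s, s ∉ sqs p → v (-s) = 0 := by
    intro s hs
    refine hv0 _ fun h' => hs ?_
    have := sqs_neg p h _ h'
    rwa [neg_neg] at this
  have hsv' : ∑ s, v (-s) = q * n := by
    rw [← hsv]
    exact Fintype.sum_equiv (Equiv.neg _) _ _ fun s => rfl
  have hV' : ∑ s, v (-s) ^ 2 = V := by
    rw [hV]
    exact Fintype.sum_equiv (Equiv.neg _) _ _ fun s => rfl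
  -- sums over the squares
  have hres : ∀ f : ZMod (p : ℕ) → ℝ, (∀ s, s ∉ sqs p → f s = 0) → ∑ s ∈ sqs p, f s = ∑ s, f s := by
    intro f hf
    exact Finset.sum_subset (Finset.subset_univ _) fun s _ hs => hf s hs
  have hCS : q * m ^ 2 ≤ U := by
    have h1 : (∑ s ∈ sqs p, u s) ^ 2 ≤ (sqs p).card * ∑ s ∈ sqs p, u s ^ 2 :=
      sq_sum_le_card_mul_sum_sq
    rw [hres _ hu0, hres _ (fun s hs => by rw [hu0 s hs]; ring), hsu, ← hU, ← hNdef] at h1
    have hU0 : 0 ≤ U := Finset.sum_nonneg fun s _ => sq_nonneg _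
    have h2 : q ^ 2 * m ^ 2 ≤ q * U := by
      calc q ^ 2 * m ^ 2 = (q * m) ^ 2 := by ring
        _ ≤ N * U := h1
        _ ≤ q * U := mul_le_mul_of_nonneg_right hN hU0
    have h3 : q * (q * m ^ 2) ≤ q * U := by linarith
    exact le_of_mul_le_mul_left h3 hq0
  have hCSv : q * n ^ 2 ≤ V := by
    have h1 : (∑ s ∈ sqs p, v s) ^ 2 ≤ (sqs p).card * ∑ s ∈ sqs p, v s ^ 2 :=
      sq_sum_le_card_mul_sum_sq
    rw [hres _ hv0, hres _ (fun s hs => by rw [hv0 s hs]; ring), hsv, ← hV, ← hNdef] at h1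
    have hV0 : 0 ≤ V := Finset.sum_nonneg fun s _ => sq_nonneg _
    have h2 : q ^ 2 * n ^ 2 ≤ q * V := by
      calc q ^ 2 * n ^ 2 = (q * n) ^ 2 := by ring
        _ ≤ N * V := h1
        _ ≤ q * V := mul_le_mul_of_nonneg_right hN hV0
    have h3 : q * (q * n ^ 2) ≤ q * V := by linarith
    exact le_of_mul_le_mul_left h3 hq0
  -- first inequality
  have hW1 : 4 * m * n * C - 2 * m * n ^ 2 * (q * m) - m ^ 2 * V ≤ W := by
    rw [hC, ← hsu, ← hV', hW, Finset.mul_sum, Finset.mul_sum, Finset.mul_sum,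
      ← Finset.sum_sub_distrib, ← Finset.sum_sub_distrib]
    refine Finset.sum_le_sum fun s _ => ?_
    have h1 : 0 ≤ (u s - m) ^ 2 * v (-s) ^ 2 := by positivity
    have h2 : 0 ≤ 2 * m * u s * (v (-s) - n) ^ 2 := by
      have := hu s
      positivity
    nlinarith
  have hC1 : 4 * q * (m ^ 2 * n ^ 2) - n ^ 2 * U - m ^ 2 * V ≤ 2 * m * n * C := by
    have h1 : 0 ≤ ∑ s ∈ sqs p, (n * u s + m * v (-s) - 2 * m * n) ^ 2 :=
      Finset.sum_nonneg fun s _ => sq_nonneg _
    have h2 : ∑ s ∈ sqs p, (n * u s + m * v (-s) - 2 * m * n) ^ 2 =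
        n ^ 2 * U + m ^ 2 * V + 4 * m ^ 2 * n ^ 2 * N + 2 * m * n * C
          - 4 * m * n ^ 2 * (q * m) - 4 * m ^ 2 * n * (q * n) := by
      have e1 : ∀ s, (n * u s + m * v (-s) - 2 * m * n) ^ 2 =
          n ^ 2 * u s ^ 2 + m ^ 2 * v (-s) ^ 2 + 4 * m ^ 2 * n ^ 2 + 2 * m * n * (u s * v (-s))
            - 4 * m * n ^ 2 * u s - 4 * m ^ 2 * n * v (-s) := fun s => by ring
      have r1 : ∑ s ∈ sqs p, n ^ 2 * u s ^ 2 = n ^ 2 * U := by
        rw [← Finset.mul_sum, hres (fun s => u s ^ 2) (fun s hs => by rw [hu0 s hs]; ring)]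
      have r2 : ∑ s ∈ sqs p, m ^ 2 * v (-s) ^ 2 = m ^ 2 * V := by
        rw [← Finset.mul_sum, hres (fun s => v (-s) ^ 2) (fun s hs => by rw [hv'0 s hs]; ring), hV']
      have r3 : ∑ s ∈ sqs p, 2 * m * n * (u s * v (-s)) = 2 * m * n * C := by
        rw [← Finset.mul_sum, hres (fun s => u s * v (-s)) (fun s hs => by rw [hu0 s hs]; ring)]
      have r4 : ∑ s ∈ sqs p, 4 * m * n ^ 2 * u s = 4 * m * n ^ 2 * (q * m) := by
        rw [← Finset.mul_sum, hres u hu0, hsu]
      have r5 : ∑ s ∈ sqs p, 4 * m ^ 2 * n * v (-s) = 4 * m ^ 2 * n * (q * n) := by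
        rw [← Finset.mul_sum, hres (fun s => v (-s)) hv'0, hsv']
      simp only [e1]
      rw [Finset.sum_sub_distrib, Finset.sum_sub_distrib, Finset.sum_add_distrib,
        Finset.sum_add_distrib, Finset.sum_add_distrib, r1, r2, r3, r4, r5, Finset.sum_const,
        nsmul_eq_mul]
      ring
    rw [h2] at h1
    have h3 : 0 ≤ (m ^ 2 * n ^ 2) * (q - N) := mul_nonneg (by positivity) (by linarith)
    nlinarith
  have hfin : q ^ 2 * (m ^ 2 * n ^ 2) ≤ 3 / 4 * U * V + q / 4 * W := by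
    have h1 : 6 * q * (m ^ 2 * n ^ 2) - 2 * n ^ 2 * U - 3 * m ^ 2 * V ≤ W := by nlinarith
    have h2 : q * (6 * q * (m ^ 2 * n ^ 2) - 2 * n ^ 2 * U - 3 * m ^ 2 * V) ≤ q * W :=
      mul_le_mul_of_nonneg_left h1 hq0.le
    have h3 : 0 ≤ (U - q * m ^ 2) * (V - q * n ^ 2) :=
      mul_nonneg (by linarith) (by linarith)
    have h4 : 0 ≤ (q * n ^ 2) * (U - q * m ^ 2) :=
      mul_nonneg (by positivity) (by linarith)
    nlinarith
  refine le_trans (le_of_eq ?_) hfin
  rw [hsu, hsv]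
  field_simp

lemma cl_empty (p : Nat.Primes) (S : Finset ℕ) (s : ZMod (p : ℕ)) (hs : s ∉ sqs p) :
    cl p S s = ∅ := by
  unfold cl
  rw [Finset.filter_eq_empty_iff]
  intro n _ hn
  refine hs ?_
  unfold sqs
  rw [Finset.mem_image]
  exact ⟨n, Finset.mem_univ _, hn⟩

lemma wt_cl (p : Nat.Primes) (S T : Finset ℕ) (s t : ZMod (p : ℕ)) (n m : ℕ) (hn : n ∈ cl p S s)
    (hm : m ∈ cl p T t) :
    wt p (n ^ 2 + m ^ 2) = 3 / 4 + if t = -s then qq p / 4 else 0 := by
  unfold cl at hn hm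
  rw [Finset.mem_filter] at hn hm
  unfold wt qq
  have h : (p : ℕ) ∣ n ^ 2 + m ^ 2 ↔ t = -s := by
    rw [← ZMod.natCast_eq_zero_iff]
    push_cast
    rw [hn.2, hm.2]
    constructor
    · intro h
      exact eq_neg_of_add_eq_zero_right h
    · rintro rfl
      ring
  congr 1
  by_cases h' : t = -s
  · rw [if_pos h', if_pos (h.mpr h')]
    ring
  · rw [if_neg h', if_neg fun h'' => h' (h.mp h'')]

/-- The product of the numbers of squares. -/
noncomputable def QQ (L : List Nat.Primes) : ℝ := (L.map qq).prod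

lemma QQ_pos (L : List Nat.Primes) : 0 < QQ L := by
  unfold QQ
  induction L with
  | nil => simp
  | cons p L ih =>
    rw [List.map_cons, List.prod_cons]
    exact mul_pos (qq_pos p) ih

/-- The reverse hypercontractive inequality. -/
lemma Psi_ge (L : List Nat.Primes) (hL : ∀ p ∈ L, (p : ℕ) % 4 = 1) (S T : Finset ℕ) :
    Th L S ^ 2 * Th L T ^ 2 / QQ L ^ 2 ≤ Psi L S T := by
  classical
  induction L generalizing S T with
  | nil =>
    unfold Psi
    simp only [Th, QQ, wts, List.map_nil, List.prod_nil, Finset.sum_const, nsmul_eq_mul, mul_one,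
      one_pow, div_one]
    rw [Real.sq_sqrt (Nat.cast_nonneg _), Real.sq_sqrt (Nat.cast_nonneg _)]
  | cons p L ih =>
    have hp := hL p List.mem_cons_self
    have ih' := ih fun q hq => hL q (List.mem_cons_of_mem _ hq)
    set u : ZMod (p : ℕ) → ℝ := fun s => Th L (cl p S s) with hu
    set v : ZMod (p : ℕ) → ℝ := fun s => Th L (cl p T s) with hv
    have hu0 : ∀ s, s ∉ sqs p → u s = 0 := fun s hs => by
      rw [hu]
      simp only
      rw [cl_empty p S s hs, Th_empty]
    have hv0 : ∀ s, s ∉ sqs p → v s = 0 := fun s hs => by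
      rw [hv]
      simp only
      rw [cl_empty p T s hs, Th_empty]
    have h1 := one_coord p hp u v (fun s => Th_nonneg _ _) (fun s => Th_nonneg _ _) hu0 hv0
    have h2 : Psi (p :: L) S T = ∑ s : ZMod (p : ℕ), ∑ t : ZMod (p : ℕ),
        (3 / 4 + if t = -s then qq p / 4 else 0) * Psi L (cl p S s) (cl p T t) := by
      unfold Psi
      rw [← Finset.sum_fiberwise S (fun n : ℕ => (n : ZMod (p : ℕ)) ^ 2)]
      refine Finset.sum_congr rfl fun s _ => ?_
      have h3 : ∀ n ∈ cl p S s, ∑ m ∈ T, wts (p :: L) (n ^ 2 + m ^ 2) =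
          ∑ t : ZMod (p : ℕ), (3 / 4 + if t = -s then qq p / 4 else 0) *
            ∑ m ∈ cl p T t, wts L (n ^ 2 + m ^ 2) := by
        intro n hn
        rw [← Finset.sum_fiberwise T (fun m : ℕ => (m : ZMod (p : ℕ)) ^ 2)]
        refine Finset.sum_congr rfl fun t _ => ?_
        rw [Finset.mul_sum]
        refine Finset.sum_congr rfl fun m hm => ?_
        rw [wts_cons, wt_cl p S T s t n m hn hm]
      rw [show (S.filter fun n : ℕ => (n : ZMod (p : ℕ)) ^ 2 = s) = cl p S s from rfl,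
        Finset.sum_congr rfl h3, Finset.sum_comm]
      refine Finset.sum_congr rfl fun t _ => ?_
      rw [Finset.mul_sum]
    have hQ : QQ (p :: L) = qq p * QQ L := by simp [QQ]
    have hQ0 := QQ_pos L
    have h3 : (3 / 4 * (∑ s, u s ^ 2) * (∑ s, v s ^ 2) + qq p / 4 * ∑ s, u s ^ 2 * v (-s) ^ 2) /
        QQ L ^ 2 ≤ Psi (p :: L) S T := by
      rw [h2]
      have h4 : (3 / 4 * (∑ s, u s ^ 2) * (∑ s, v s ^ 2) + qq p / 4 * ∑ s, u s ^ 2 * v (-s) ^ 2) /
          QQ L ^ 2 = ∑ s : ZMod (p : ℕ), ∑ t : ZMod (p : ℕ),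
          (3 / 4 + if t = -s then qq p / 4 else 0) * (u s ^ 2 * v t ^ 2 / QQ L ^ 2) := by
        have h5 : ∀ s : ZMod (p : ℕ), ∑ t : ZMod (p : ℕ),
            (3 / 4 + if t = -s then qq p / 4 else 0) * (u s ^ 2 * v t ^ 2 / QQ L ^ 2) =
            3 / 4 * (∑ t, v t ^ 2) / QQ L ^ 2 * u s ^ 2 +
              qq p / 4 / QQ L ^ 2 * (u s ^ 2 * v (-s) ^ 2) := by
          intro s
          simp only [add_mul]
          rw [Finset.sum_add_distrib]
          congr 1
          · rw [Finset.mul_sum, Finset.sum_div, Finset.sum_mul]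
            refine Finset.sum_congr rfl fun t _ => ?_
            ring
          · simp only [ite_mul, zero_mul, Finset.sum_ite_eq', Finset.mem_univ, if_true]
            ring
        simp only [h5]
        rw [Finset.sum_add_distrib, ← Finset.mul_sum, ← Finset.mul_sum]
        ring
      rw [h4]
      refine Finset.sum_le_sum fun s _ => Finset.sum_le_sum fun t _ => ?_
      refine mul_le_mul_of_nonneg_left (ih' _ _) ?_
      have := qq_pos p
      split_ifs <;> positivity
    refine le_trans ?_ h3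
    rw [hQ]
    have h5 : Th (p :: L) S ^ 2 * Th (p :: L) T ^ 2 / (qq p * QQ L) ^ 2 =
        ((∑ s, u s) ^ 2 * (∑ s, v s) ^ 2 / qq p ^ 2) / QQ L ^ 2 := by
      simp only [Th, hu, hv]
      rw [div_div]
      ring
    rw [h5]
    exact div_le_div_of_nonneg_right h1 (by positivity)

/-- Classes of bounded size. -/
lemma Th_ge (L : List Nat.Primes) (S : Finset ℕ) (H : ℝ) (hH : 0 < H)
    (h : ∀ c : (p : Nat.Primes) → ZMod (p : ℕ),
      ((S.filter fun n => ∀ p ∈ L, (n : ZMod (p : ℕ)) ^ 2 = c p).card : ℝ) ≤ H) :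
    (S.card : ℝ) / Real.sqrt H ≤ Th L S := by
  classical
  induction L generalizing S with
  | nil =>
    have h1 : (S.card : ℝ) ≤ H := by
      have := h fun p => 0
      simpa using this
    unfold Th
    rw [div_le_iff₀ (Real.sqrt_pos.mpr hH)]
    calc (S.card : ℝ) = Real.sqrt S.card * Real.sqrt S.card :=
          (Real.mul_self_sqrt (Nat.cast_nonneg _)).symm
      _ ≤ Real.sqrt S.card * Real.sqrt H :=
          mul_le_mul_of_nonneg_left (Real.sqrt_le_sqrt h1) (Real.sqrt_nonneg _)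
  | cons p L ih =>
    have h1 : ∀ s : ZMod (p : ℕ), ((cl p S s).card : ℝ) / Real.sqrt H ≤ Th L (cl p S s) := by
      intro s
      refine ih _ fun c => ?_
      refine le_trans ?_ (h (Function.update c p s))
      rw [Nat.cast_le]
      refine Finset.card_le_card fun n hn => ?_
      unfold cl at hn
      rw [Finset.mem_filter, Finset.mem_filter] at hn
      rw [Finset.mem_filter]
      refine ⟨hn.1.1, fun q hq => ?_⟩
      by_cases hqp : q = p
      · subst hqp
        rw [Function.update_self]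
        exact hn.1.2
      · rw [Function.update_of_ne hqp]
        rcases List.mem_cons.mp hq with h' | h'
        · exact absurd h' hqp
        · exact hn.2 q h'
    have h2 : (S.card : ℝ) = ∑ s : ZMod (p : ℕ), ((cl p S s).card : ℝ) := by
      have h3 := Finset.card_eq_sum_card_fiberwise (s := S) (t := Finset.univ)
        (f := fun n : ℕ => (n : ZMod (p : ℕ)) ^ 2) (fun _ _ => Finset.mem_coe.mpr (Finset.mem_univ _))
      rw [h3]
      push_cast
      rfl
    unfold Th
    rw [h2, Finset.sum_div]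
    exact Finset.sum_le_sum fun s _ => h1 s

end Pool.Agent.Q247.ET
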