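import Mathlib
import Pool.Agent.Q247.ET.RH

/-!
# Counting lemmas
-/

set_option autoImplicit false

namespace Pool.Agent.Q247.ET

open Finset

/-- The product of the primes in a list. -/
def PP (L : List Nat.Primes) : ℕ := (L.map fun p : Nat.Primes => (p : ℕ)).prod

lemma PP_nil : PP [] = 1 := rfl

lemma PP_cons (p : Nat.Primes) (L : List Nat.Primes) : PP (p :: L) = p * PP L := by simp [PP]

lemma PP_pos (L : List Nat.Primes) : 0 < PP L := by
  induction L with
  | nil => simp [PP]
  | cons p L ih =>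
    rw [PP_cons]
    exact Nat.mul_pos p.2.pos ih

lemma card_mod (a Y d r : ℕ) (hd : 0 < d) :
    (((Finset.Ico a (a + Y)).filter fun n => n % d = r).card : ℝ) ≤ (Y : ℝ) / d + 1 := by
  by_cases hr : r < d
  · have h1 : ((Finset.Ico a (a + Y)).filter fun n => n % d = r) =
        (Finset.Ico a (a + Y)).filter fun n => n ≡ r [MOD d] := by
      refine Finset.filter_congr fun n _ => ?_
      unfold Nat.ModEq
      rw [Nat.mod_eq_of_lt hr]
    rw [h1]
    have h2 := Nat.Ico_filter_modEq_card a (a + Y) hd r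
    have h3 : ((((Finset.Ico a (a + Y)).filter fun n => n ≡ r [MOD d]).card : ℤ) : ℝ) ≤
        (Y : ℝ) / d + 1 := by
      rw [h2]
      push_cast
      have hdr : (0 : ℝ) < d := by exact_mod_cast hd
      refine max_le ?_ (by positivity)
      have e1 : ((⌈(((a : ℚ) + Y) - r) / d⌉ : ℤ) : ℝ) < (((a : ℝ) + Y) - r) / d + 1 := by
        have := Int.ceil_lt_add_one ((((a : ℚ) + Y) - r) / d)
        have h4 : (((⌈(((a : ℚ) + Y) - r) / d⌉ : ℤ) : ℚ) : ℝ) < (((((a : ℚ) + Y) - r) / d + 1 : ℚ) : ℝ) := by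
          exact_mod_cast this
        push_cast at h4
        exact_mod_cast h4
      have e2 : (((a : ℝ)) - r) / d ≤ ((⌈(((a : ℚ)) - r) / d⌉ : ℤ) : ℝ) := by
        have := Int.le_ceil (((a : ℚ) - r) / d)
        have h4 : (((((a : ℚ)) - r) / d : ℚ) : ℝ) ≤ (((⌈(((a : ℚ)) - r) / d⌉ : ℤ) : ℚ) : ℝ) := by
          exact_mod_cast this
        push_cast at h4
        exact_mod_cast h4
      have e3 : (((a : ℝ) + Y) - r) / d = ((a : ℝ) - r) / d + Y / d := by ring
      linarith
    exact_mod_cast h3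
  · have h1 : ((Finset.Ico a (a + Y)).filter fun n => n % d = r) = ∅ := by
      rw [Finset.filter_eq_empty_iff]
      intro n _ hn
      exact hr (hn ▸ Nat.mod_lt n hd)
    rw [h1]
    simp only [Finset.card_empty, Nat.cast_zero]
    positivity

/-- The number of elements of a class. -/
lemma class_card (L : List Nat.Primes) (hL : L.Nodup) (c : (p : Nat.Primes) → ZMod (p : ℕ))
    (a Y d r : ℕ) (hd : 0 < d) (hcop : ∀ p ∈ L, d.Coprime p) :
    (((Finset.Ico a (a + Y)).filter fun n => n % d = r ∧ ∀ p ∈ L,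
      (n : ZMod (p : ℕ)) ^ 2 = c p).card : ℝ) ≤ 2 ^ L.length * ((Y : ℝ) / (d * PP L) + 1) := by
  classical
  induction L generalizing d r with
  | nil =>
    have := card_mod a Y d r hd
    simpa [PP_nil] using this
  | cons p L ih =>
    rw [List.nodup_cons] at hL
    have hp : Fact (p : ℕ).Prime := ⟨p.2⟩
    have hdp : 0 < d * (p : ℕ) := Nat.mul_pos hd p.2.pos
    have hcop' : ∀ q ∈ L, (d * (p : ℕ)).Coprime q := by
      intro q hq
      refine Nat.Coprime.mul_left (hcop q (List.mem_cons_of_mem _ hq)) ?_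
      refine (Nat.coprime_primes p.2 q.2).mpr fun h => hL.1 ?_
      have : p = q := Subtype.ext h
      rwa [this]
    by_cases hroot : ∃ x : ZMod (p : ℕ), x ^ 2 = c p
    · obtain ⟨x, hx⟩ := hroot
      have hkey : ∀ y : ZMod (p : ℕ), ∃ r' : ℕ, ∀ n : ℕ, n % d = r → (n : ZMod (p : ℕ)) = y →
          n % (d * (p : ℕ)) = r' := by
        intro y
        have hco := hcop p List.mem_cons_self
        refine ⟨(Nat.chineseRemainder hco r y.val : ℕ) % (d * (p : ℕ)), fun n hn hn' => ?_⟩
        have h1 : n ≡ r [MOD d] := by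
          unfold Nat.ModEq
          rw [hn, ← hn, Nat.mod_mod]
        have h2 : n ≡ y.val [MOD (p : ℕ)] := by
          rw [← ZMod.natCast_eq_natCast_iff, hn', ZMod.natCast_zmod_val]
        exact Nat.chineseRemainder_modEq_unique hco h1 h2
      obtain ⟨r1, hr1⟩ := hkey x
      obtain ⟨r2, hr2⟩ := hkey (-x)
      have h1 := ih hL.2 (d * (p : ℕ)) r1 hdp hcop'
      have h2 := ih hL.2 (d * (p : ℕ)) r2 hdp hcop'
      have hsub : ((Finset.Ico a (a + Y)).filter fun n => n % d = r ∧ ∀ q ∈ p :: L,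
          (n : ZMod (q : ℕ)) ^ 2 = c q) ⊆
          ((Finset.Ico a (a + Y)).filter fun n => n % (d * (p : ℕ)) = r1 ∧ ∀ q ∈ L,
            (n : ZMod (q : ℕ)) ^ 2 = c q) ∪
          ((Finset.Ico a (a + Y)).filter fun n => n % (d * (p : ℕ)) = r2 ∧ ∀ q ∈ L,
            (n : ZMod (q : ℕ)) ^ 2 = c q) := by
        intro n hn
        rw [Finset.mem_filter] at hn
        obtain ⟨hn1, hn2, hn3⟩ := hn
        have hn4 := hn3 p List.mem_cons_self
        have hn5 : ∀ q ∈ L, (n : ZMod (q : ℕ)) ^ 2 = c q := fun q hq =>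
          hn3 q (List.mem_cons_of_mem _ hq)
        rw [← hx] at hn4
        rw [Finset.mem_union, Finset.mem_filter, Finset.mem_filter]
        rcases sq_eq_sq_iff_eq_or_eq_neg.mp hn4 with h | h
        · exact Or.inl ⟨hn1, hr1 n hn2 h, hn5⟩
        · exact Or.inr ⟨hn1, hr2 n hn2 h, hn5⟩
      have h3 := (Finset.card_le_card hsub).trans (Finset.card_union_le _ _)
      have h4 : (((Finset.Ico a (a + Y)).filter fun n => n % d = r ∧ ∀ q ∈ p :: L,
          (n : ZMod (q : ℕ)) ^ 2 = c q).card : ℝ) ≤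
          (((Finset.Ico a (a + Y)).filter fun n => n % (d * (p : ℕ)) = r1 ∧ ∀ q ∈ L,
            (n : ZMod (q : ℕ)) ^ 2 = c q).card : ℝ) +
          (((Finset.Ico a (a + Y)).filter fun n => n % (d * (p : ℕ)) = r2 ∧ ∀ q ∈ L,
            (n : ZMod (q : ℕ)) ^ 2 = c q).card : ℝ) := by exact_mod_cast h3
      refine h4.trans ((add_le_add h1 h2).trans (le_of_eq ?_))
      rw [PP_cons, List.length_cons, pow_succ]
      push_cast
      rw [mul_assoc (d : ℝ)]
      ring
    · have h1 : ((Finset.Ico a (a + Y)).filter fun n => n % d = r ∧ ∀ q ∈ p :: L,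
          (n : ZMod (q : ℕ)) ^ 2 = c q) = ∅ := by
        rw [Finset.filter_eq_empty_iff]
        rintro n _ ⟨_, hn⟩
        exact hroot ⟨n, hn p List.mem_cons_self⟩
      rw [h1]
      simp only [Finset.card_empty, Nat.cast_zero]
      positivity

/-- The mean value of the weights. -/
noncomputable def mw (L : List Nat.Primes) : ℝ :=
  (L.map fun p : Nat.Primes => 3 / 4 + qq p / 4 / ((p : ℕ) : ℝ)).prod

lemma mw_cons (p : Nat.Primes) (L : List Nat.Primes) :
    mw (p :: L) = (3 / 4 + qq p / 4 / ((p : ℕ) : ℝ)) * mw L := by simp [mw]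

lemma mw_pos (L : List Nat.Primes) : 0 < mw L := by
  induction L with
  | nil => simp [mw]
  | cons p L ih =>
    rw [mw_cons]
    have := qq_pos p
    positivity

lemma wts_sum (L : List Nat.Primes) (hL : L.Nodup) (u Z d : ℕ) (hd : 0 < d)
    (hcop : ∀ p ∈ L, d.Coprime p) (hZ : d * PP L ≤ Z) :
    ∑ k ∈ (Finset.Ico u (u + Z)).filter (fun k => d ∣ k), wts L k ≤ 2 * ((Z : ℝ) / d) * mw L := by
  classical
  induction L generalizing d with
  | nil =>
    have h1 := card_mod u Z d 0 hd
    have h2 : (1 : ℝ) ≤ (Z : ℝ) / d := by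
      rw [PP_nil, mul_one] at hZ
      rw [one_le_div (by exact_mod_cast hd)]
      exact_mod_cast hZ
    have h3 : ((Finset.Ico u (u + Z)).filter fun k => d ∣ k) =
        ((Finset.Ico u (u + Z)).filter fun k => k % d = 0) :=
      Finset.filter_congr fun k _ => Nat.dvd_iff_mod_eq_zero
    rw [h3]
    simp only [wts, mw, List.map_nil, List.prod_nil, Finset.sum_const, nsmul_eq_mul, mul_one]
    linarith
  | cons p L ih =>
    rw [List.nodup_cons] at hL
    rw [PP_cons] at hZ
    have hdp : 0 < d * (p : ℕ) := Nat.mul_pos hd p.2.pos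
    have hco := hcop p List.mem_cons_self
    have hcop' : ∀ q ∈ L, (d * (p : ℕ)).Coprime q := by
      intro q hq
      refine Nat.Coprime.mul_left (hcop q (List.mem_cons_of_mem _ hq)) ?_
      refine (Nat.coprime_primes p.2 q.2).mpr fun h => hL.1 ?_
      have : p = q := Subtype.ext h
      rwa [this]
    have h1 := ih hL.2 d hd (fun q hq => hcop q (List.mem_cons_of_mem _ hq))
      (le_trans (Nat.mul_le_mul_left _ (Nat.le_mul_of_pos_left _ p.2.pos)) hZ)
    have h2 := ih hL.2 (d * (p : ℕ)) hdp hcop' (by rw [mul_assoc]; exact hZ)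
    have h3 : ∑ k ∈ (Finset.Ico u (u + Z)).filter (fun k => d ∣ k), wts (p :: L) k =
        3 / 4 * ∑ k ∈ (Finset.Ico u (u + Z)).filter (fun k => d ∣ k), wts L k +
        qq p / 4 * ∑ k ∈ (Finset.Ico u (u + Z)).filter (fun k => d * (p : ℕ) ∣ k), wts L k := by
      have h4 : (Finset.Ico u (u + Z)).filter (fun k => d * (p : ℕ) ∣ k) =
          ((Finset.Ico u (u + Z)).filter (fun k => d ∣ k)).filter (fun k => (p : ℕ) ∣ k) := by
        rw [Finset.filter_filter]
        refine Finset.filter_congr fun k _ => ?_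
        constructor
        · intro h
          exact ⟨(Dvd.intro _ rfl).trans h, (Dvd.intro_left _ rfl).trans h⟩
        · rintro ⟨h5, h6⟩
          exact Nat.Coprime.mul_dvd_of_dvd_of_dvd hco h5 h6
      rw [h4, Finset.sum_filter (fun k => (p : ℕ) ∣ k)]
      rw [Finset.mul_sum, Finset.mul_sum, ← Finset.sum_add_distrib]
      refine Finset.sum_congr rfl fun k _ => ?_
      rw [wts_cons]
      unfold wt qq
      split_ifs <;> ring
    rw [h3, mw_cons]
    have hqq := qq_pos p
    have hpr : (0 : ℝ) < ((p : ℕ) : ℝ) := by exact_mod_cast p.2.pos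
    have hdr : (0 : ℝ) < d := by exact_mod_cast hd
    calc 3 / 4 * ∑ k ∈ (Finset.Ico u (u + Z)).filter (fun k => d ∣ k), wts L k +
        qq p / 4 * ∑ k ∈ (Finset.Ico u (u + Z)).filter (fun k => d * (p : ℕ) ∣ k), wts L k
        ≤ 3 / 4 * (2 * ((Z : ℝ) / d) * mw L) +
          qq p / 4 * (2 * ((Z : ℝ) / (d * (p : ℕ) : ℕ)) * mw L) :=
        add_le_add (mul_le_mul_of_nonneg_left h1 (by norm_num))
          (mul_le_mul_of_nonneg_left h2 (by positivity))
      _ = 2 * ((Z : ℝ) / d) * ((3 / 4 + qq p / 4 / ((p : ℕ) : ℝ)) * mw L) := by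
        push_cast
        field_simp

end Pool.Agent.Q247.ET
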