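import Mathlib
import Pool.Agent.Q247.ET.Cnt

/-!
# The main inequality: dense sets of squares have many representations of some integer
-/

set_option autoImplicit false

namespace Pool.Agent.Q247.ET

open Finset

lemma factor_le (p : Nat.Primes) (h : 29 ≤ (p : ℕ)) :
    4 * qq p ^ 2 / ((p : ℕ) : ℝ) ^ 2 * (3 / 4 + qq p / 4 / ((p : ℕ) : ℝ)) ≤ 16 / 17 := by
  have hp : (29 : ℝ) ≤ ((p : ℕ) : ℝ) := by exact_mod_cast h
  set x : ℝ := ((p : ℕ) : ℝ) with hx
  have hx0 : 0 < x := by linarith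
  unfold qq
  rw [← hx]
  have e : 4 * ((x + 1) / 2) ^ 2 / x ^ 2 * (3 / 4 + (x + 1) / 2 / 4 / x) =
      ((x + 1) ^ 2 * (7 * x + 1)) / (8 * x ^ 3) := by
    field_simp
    ring
  rw [e, div_le_div_iff₀ (by positivity) (by norm_num)]
  nlinarith [mul_nonneg (sub_nonneg.mpr hp) (sub_nonneg.mpr hp),
    mul_nonneg (mul_nonneg (sub_nonneg.mpr hp) (sub_nonneg.mpr hp)) (sub_nonneg.mpr hp)]

lemma prod_factor (L : List Nat.Primes) (h29 : ∀ p ∈ L, 29 ≤ (p : ℕ)) :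
    4 ^ L.length * QQ L ^ 2 / (PP L : ℝ) ^ 2 * mw L * (17 / 16) ^ L.length ≤ 1 := by
  induction L with
  | nil => simp [QQ, mw, PP_nil]
  | cons p L ih =>
    have h1 := ih fun q hq => h29 q (List.mem_cons_of_mem _ hq)
    have h2 := factor_le p (h29 p List.mem_cons_self)
    have hQ : QQ (p :: L) = qq p * QQ L := by simp [QQ]
    have hqq := qq_pos p
    have hmw := mw_pos L
    have hQQ := QQ_pos L
    have hPP : (0 : ℝ) < PP L := by exact_mod_cast PP_pos L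
    have hpr : (0 : ℝ) < ((p : ℕ) : ℝ) := by exact_mod_cast p.2.pos
    rw [hQ, mw_cons, PP_cons, List.length_cons]
    push_cast
    calc 4 ^ (L.length + 1) * (qq p * QQ L) ^ 2 / (((p : ℕ) : ℝ) * PP L) ^ 2 *
          ((3 / 4 + qq p / 4 / ((p : ℕ) : ℝ)) * mw L) * (17 / 16) ^ (L.length + 1)
        = (4 * qq p ^ 2 / ((p : ℕ) : ℝ) ^ 2 * (3 / 4 + qq p / 4 / ((p : ℕ) : ℝ))) * (17 / 16) *
          (4 ^ L.length * QQ L ^ 2 / (PP L : ℝ) ^ 2 * mw L * (17 / 16) ^ L.length) := by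
          field_simp
          ring
      _ ≤ (16 / 17) * (17 / 16) * 1 := by
          refine mul_le_mul (mul_le_mul_of_nonneg_right h2 (by norm_num)) h1 (by positivity)
            (by norm_num)
      _ = 1 := by norm_num

/-- The main inequality. -/
lemma key (L : List Nat.Primes) (hn : L.Nodup) (h4 : ∀ p ∈ L, (p : ℕ) % 4 = 1)
    (h29 : ∀ p ∈ L, 29 ≤ (p : ℕ)) (a Y u Z R : ℕ) (S : Finset ℕ)
    (hS : S ⊆ Finset.Ico a (a + Y))
    (hsum : ∀ n ∈ S, ∀ m ∈ S, n ^ 2 + m ^ 2 ∈ Finset.Ico u (u + Z))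
    (hY : PP L ≤ Y) (hZ : PP L ≤ Z)
    (hR : ∀ k, ((S ×ˢ S).filter (fun z => z.1 ^ 2 + z.2 ^ 2 = k)).card ≤ R) :
    (S.card : ℝ) ^ 4 * (17 / 16) ^ L.length ≤ 8 * (Y : ℝ) ^ 2 * Z * R := by
  classical
  have hPP0 : (0 : ℝ) < PP L := by exact_mod_cast PP_pos L
  have hPY : (PP L : ℝ) ≤ Y := by exact_mod_cast hY
  have hY0 : (0 : ℝ) < Y := lt_of_lt_of_le hPP0 hPY
  have hQQ := QQ_pos L
  have hmw := mw_pos L
  -- upper bound
  have hup : Psi L S S ≤ R * (2 * Z * mw L) := by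
    have h1 : Psi L S S = ∑ z ∈ S ×ˢ S, wts L (z.1 ^ 2 + z.2 ^ 2) := by
      unfold Psi
      rw [Finset.sum_product]
    have hmaps : ∀ z ∈ S ×ˢ S, z.1 ^ 2 + z.2 ^ 2 ∈ Finset.Ico u (u + Z) := by
      intro z hz
      rw [Finset.mem_product] at hz
      exact hsum _ hz.1 _ hz.2
    rw [h1, ← Finset.sum_fiberwise_of_maps_to hmaps]
    have h2 := wts_sum L hn u Z 1 one_pos (fun p _ => Nat.coprime_one_left _) (by rw [one_mul]; exact hZ)
    have h3 : (Finset.Ico u (u + Z)).filter (fun k => 1 ∣ k) = Finset.Ico u (u + Z) :=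
      Finset.filter_true_of_mem fun k _ => one_dvd k
    rw [h3, Nat.cast_one, div_one] at h2
    refine le_trans ?_ (mul_le_mul_of_nonneg_left h2 (Nat.cast_nonneg R))
    rw [Finset.mul_sum]
    refine Finset.sum_le_sum fun k _ => ?_
    have h5 : ∀ z ∈ (S ×ˢ S).filter (fun z => z.1 ^ 2 + z.2 ^ 2 = k),
        wts L (z.1 ^ 2 + z.2 ^ 2) = wts L k := by
      intro z hz
      rw [Finset.mem_filter] at hz
      rw [hz.2]
    rw [Finset.sum_congr rfl h5, Finset.sum_const, nsmul_eq_mul]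
    exact mul_le_mul_of_nonneg_right (by exact_mod_cast hR k) (wts_nonneg L k)
  -- lower bound
  set H : ℝ := 2 ^ L.length * (2 * (Y : ℝ) / PP L) with hH
  have hH0 : 0 < H := by positivity
  have hTh : (S.card : ℝ) / Real.sqrt H ≤ Th L S := by
    refine Th_ge L S H hH0 fun c => ?_
    have h1 := class_card L hn c a Y 1 0 one_pos fun p _ => Nat.coprime_one_left _
    have h2 : (S.filter fun n => ∀ p ∈ L, (n : ZMod (p : ℕ)) ^ 2 = c p) ⊆
        ((Finset.Ico a (a + Y)).filter fun n => n % 1 = 0 ∧ ∀ p ∈ L,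
          (n : ZMod (p : ℕ)) ^ 2 = c p) := by
      intro n hn
      rw [Finset.mem_filter] at hn ⊢
      exact ⟨hS hn.1, Nat.mod_one n, hn.2⟩
    have h3 : ((S.filter fun n => ∀ p ∈ L, (n : ZMod (p : ℕ)) ^ 2 = c p).card : ℝ) ≤
        (((Finset.Ico a (a + Y)).filter fun n => n % 1 = 0 ∧ ∀ p ∈ L,
          (n : ZMod (p : ℕ)) ^ 2 = c p).card : ℝ) := by exact_mod_cast Finset.card_le_card h2
    refine h3.trans (h1.trans ?_)
    rw [hH]
    refine mul_le_mul_of_nonneg_left ?_ (by positivity)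
    have h4 : (1 : ℝ) ≤ Y / PP L := by rwa [one_le_div hPP0]
    rw [Nat.cast_one, one_mul]
    calc (Y : ℝ) / PP L + 1 ≤ Y / PP L + Y / PP L := by linarith
      _ = 2 * (Y : ℝ) / PP L := by ring
  have hlow := Psi_ge L h4 S S
  have hTh4 : (S.card : ℝ) ^ 4 / H ^ 2 ≤ Th L S ^ 2 * Th L S ^ 2 := by
    have h1 : ((S.card : ℝ) / Real.sqrt H) ^ 4 ≤ Th L S ^ 4 :=
      pow_le_pow_left₀ (by positivity) hTh 4
    have h2 : Real.sqrt H ^ 4 = H ^ 2 := by
      calc Real.sqrt H ^ 4 = (Real.sqrt H ^ 2) ^ 2 := by ring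
        _ = H ^ 2 := by rw [Real.sq_sqrt hH0.le]
    rw [div_pow, h2] at h1
    calc (S.card : ℝ) ^ 4 / H ^ 2 ≤ Th L S ^ 4 := h1
      _ = Th L S ^ 2 * Th L S ^ 2 := by ring
  have hall : (S.card : ℝ) ^ 4 / H ^ 2 / QQ L ^ 2 ≤ R * (2 * Z * mw L) :=
    ((div_le_div_of_nonneg_right hTh4 (by positivity)).trans hlow).trans hup
  rw [div_div, div_le_iff₀ (by positivity)] at hall
  have hfac := prod_factor L h29
  have hR0 : (0 : ℝ) ≤ R := Nat.cast_nonneg R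
  have hZ0 : (0 : ℝ) ≤ Z := Nat.cast_nonneg Z
  calc (S.card : ℝ) ^ 4 * (17 / 16) ^ L.length
      ≤ (R * (2 * Z * mw L) * (H ^ 2 * QQ L ^ 2)) * (17 / 16) ^ L.length :=
        mul_le_mul_of_nonneg_right hall (by positivity)
    _ = 8 * (Y : ℝ) ^ 2 * Z * R *
        (4 ^ L.length * QQ L ^ 2 / (PP L : ℝ) ^ 2 * mw L * (17 / 16) ^ L.length) := by
        rw [hH]
        have e : (4 : ℝ) ^ L.length = 2 ^ L.length * 2 ^ L.length := by
          rw [← mul_pow]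
          norm_num
        rw [e]
        field_simp
        ring
    _ ≤ 8 * (Y : ℝ) ^ 2 * Z * R * 1 := mul_le_mul_of_nonneg_left hfac (by positivity)
    _ = 8 * (Y : ℝ) ^ 2 * Z * R := mul_one _

end Pool.Agent.Q247.ET
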