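import Mathlib
import Pool.Agent.Q247.ET.Key
import Pool.Agent.H397R2.NS4

/-!
# Sets of integers near the values of a quadratic sequence
-/

set_option autoImplicit false

namespace Pool.Agent.Q247.ET

open Finset Pool.Agent.H397R2.NS

open Classical in
lemma transfer2 (A : Set ℕ) (α β G : ℝ) (x : ℕ) (hG : 0 ≤ G) (S : Finset ℕ) (a : ℕ → ℕ)
    (hinj : Set.InjOn a S) (haA : ∀ n ∈ S, a n ∈ A) (hax : ∀ n ∈ S, a n ≤ x)
    (ha : ∀ n ∈ S, |(a n : ℝ) - (α * n ^ 2 + β)| ≤ G) (k : ℕ) (b : ℝ) (hb : 0 < b)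
    (hk : b ≤ ((S ×ˢ S).filter (fun z => z.1 ^ 2 + z.2 ^ 2 = k)).card) :
    ∃ s : ℕ, s ≤ 2 * x ∧ b / (4 * G + 1) ≤ rep A s := by
  set E := (S ×ˢ S).filter (fun z => z.1 ^ 2 + z.2 ^ 2 = k) with hE
  have hwin : ∀ z ∈ E, α * k + 2 * β - 2 * G ≤ ((a z.1 + a z.2 : ℕ) : ℝ) ∧
      ((a z.1 + a z.2 : ℕ) : ℝ) ≤ α * k + 2 * β + 2 * G := by
    intro z hz
    rw [hE, Finset.mem_filter, Finset.mem_product] at hz
    obtain ⟨⟨h1, h2⟩, h3⟩ := hz
    have h4 := abs_le.mp (ha _ h1)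
    have h5 := abs_le.mp (ha _ h2)
    have h6 : (z.1 : ℝ) ^ 2 + (z.2 : ℝ) ^ 2 = k := by exact_mod_cast h3
    rw [← h6]
    push_cast
    constructor
    · linarith [h4.1, h5.1]
    · linarith [h4.2, h5.2]
  set T := Finset.Icc ⌈α * k + 2 * β - 2 * G⌉₊ ⌊α * k + 2 * β + 2 * G⌋₊ with hT
  have hmaps : ∀ z ∈ E, a z.1 + a z.2 ∈ T := by
    intro z hz
    obtain ⟨h1, h2⟩ := hwin z hz
    rw [hT, Finset.mem_Icc]
    exact ⟨Nat.ceil_le.mpr h1, Nat.le_floor h2⟩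
  have hEne : E.Nonempty := by
    rw [← Finset.card_pos]
    have : (0 : ℝ) < E.card := lt_of_lt_of_le hb hk
    exact_mod_cast this
  obtain ⟨z0, hz0⟩ := hEne
  have hTcard : (T.card : ℝ) ≤ 4 * G + 1 := by
    have h0 := hmaps z0 hz0
    rw [hT, Finset.mem_Icc] at h0
    have h1 : ⌈α * k + 2 * β - 2 * G⌉₊ ≤ ⌊α * k + 2 * β + 2 * G⌋₊ := h0.1.trans h0.2
    rw [hT, Nat.card_Icc, Nat.cast_sub (by omega)]
    have h2 := Nat.le_ceil (α * k + 2 * β - 2 * G)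
    have h3 : ((⌊α * k + 2 * β + 2 * G⌋₊ : ℕ) : ℝ) ≤ α * k + 2 * β + 2 * G := by
      refine Nat.floor_le ?_
      have := (hwin z0 hz0).2
      exact (Nat.cast_nonneg _).trans this
    push_cast
    linarith
  obtain ⟨s, hs, hs'⟩ := Finset.exists_le_card_fiber_of_nsmul_le_card_of_maps_to
    (b := b / (4 * G + 1)) hmaps ⟨_, hmaps z0 hz0⟩ (by
      rw [nsmul_eq_mul]
      refine le_trans ?_ hk
      calc (T.card : ℝ) * (b / (4 * G + 1)) ≤ (4 * G + 1) * (b / (4 * G + 1)) :=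
            mul_le_mul_of_nonneg_right hTcard (by positivity)
        _ = b := by field_simp)
  refine ⟨s, ?_, ?_⟩
  · have h1 : (0 : ℝ) < ((E.filter fun z => a z.1 + a z.2 = s).card : ℝ) :=
      lt_of_lt_of_le (by positivity) hs'
    have h2 : 0 < (E.filter fun z => a z.1 + a z.2 = s).card := by exact_mod_cast h1
    obtain ⟨z, hz⟩ := Finset.card_pos.mp h2
    rw [Finset.mem_filter, hE, Finset.mem_filter, Finset.mem_product] at hz
    have h3 := hax _ hz.1.1.1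
    have h4 := hax _ hz.1.1.2
    omega
  · refine hs'.trans ?_
    rw [Nat.cast_le]
    unfold rep
    rw [← Set.ncard_coe_finset]
    refine Set.ncard_le_ncard_of_injOn (fun z : ℕ × ℕ => (a z.1, a z.2)) ?_ ?_ (rep_finite A s)
    · intro z hz
      rw [Finset.mem_coe, Finset.mem_filter] at hz
      have hzE := hz.1
      rw [hE, Finset.mem_filter, Finset.mem_product] at hzE
      exact ⟨haA _ hzE.1.1, haA _ hzE.1.2, hz.2⟩
    · intro z hz z' hz' h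
      rw [Finset.mem_coe, Finset.mem_filter] at hz hz'
      have h1 := hz.1
      have h2 := hz'.1
      rw [hE, Finset.mem_filter, Finset.mem_product] at h1 h2
      simp only [Prod.mk.injEq] at h
      exact Prod.ext (hinj h1.1.1 h2.1.1 h.1) (hinj h1.1.2 h2.1.2 h.2)

open Classical in
/-- A set of integers close to a quadratic sequence gives a set of `n`. -/
lemma extract2 (α β G : ℝ) (x : ℕ) (hα : G⁻¹ ≤ α) (hG : 1 ≤ G) (hGx : G ≤ x) (B : Finset ℕ)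
    (hBx : ∀ b ∈ B, b ≤ x) (hB : ∀ b ∈ B, ∃ n : ℕ, |(b : ℝ) - (α * n ^ 2 + β)| ≤ G) :
    ∃ (S : Finset ℕ) (f : ℕ → ℕ) (a0 Y u Z : ℕ), (∀ n ∈ S, f n ∈ B) ∧ Set.InjOn f S ∧
      (∀ n ∈ S, |(f n : ℝ) - (α * n ^ 2 + β)| ≤ G) ∧ (B.card : ℝ) ≤ 3 * G * S.card ∧
      S ⊆ Finset.Ico a0 (a0 + Y) ∧ (∀ n ∈ S, ∀ m ∈ S, n ^ 2 + m ^ 2 ∈ Finset.Ico u (u + Z)) ∧
      Y ≤ Z ∧ 8 * (Y : ℝ) ^ 2 * Z ≤ 3456 * G ^ 2 * (x : ℝ) ^ 2 := by
  have hG0 : 0 < G := by linarith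
  have hα0 : 0 < α := lt_of_lt_of_le (by positivity) hα
  have hex : ∀ b : ℕ, ∃ n : ℕ, b ∈ B → |(b : ℝ) - (α * n ^ 2 + β)| ≤ G := by
    intro b
    by_cases h : b ∈ B
    · obtain ⟨n, hn⟩ := hB b h
      exact ⟨n, fun _ => hn⟩
    · exact ⟨0, fun h' => absurd h' h⟩
  choose f hf using hex
  have hsec : ∀ n : ℕ, ∃ a : ℕ, n ∈ B.image f → a ∈ B ∧ f a = n := by
    intro n
    by_cases h : n ∈ B.image f
    · rw [Finset.mem_image] at h
      obtain ⟨a, ha, han⟩ := h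
      exact ⟨a, fun _ => ⟨ha, han⟩⟩
    · exact ⟨0, fun h' => absurd h' h⟩
  choose g hg using hsec
  set u0 : ℕ := ⌈(-G - β) / α⌉₊ with hu0
  set W : ℕ := ⌊(x + 2 * G) / α⌋₊ + 1 with hW
  have hxr : (1 : ℝ) ≤ x := hG.trans hGx
  have hWr : ((x : ℝ) + 2 * G) / α ≤ W := by
    rw [hW]
    push_cast
    exact (Nat.lt_floor_add_one _).le
  have hWle : (W : ℝ) ≤ 4 * G * x := by
    rw [hW]
    push_cast
    have h1 : ((⌊(x + 2 * G) / α⌋₊ : ℕ) : ℝ) ≤ (x + 2 * G) / α := Nat.floor_le (by positivity)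
    have h2 : ((x : ℝ) + 2 * G) / α ≤ (x + 2 * G) * G := by
      rw [div_le_iff₀ hα0]
      have h3 : 1 ≤ G * α := by
        have := mul_le_mul_of_nonneg_left hα hG0.le
        rwa [mul_inv_cancel₀ hG0.ne'] at this
      have h4 : 0 ≤ (x : ℝ) + 2 * G := by positivity
      nlinarith
    have h3 : ((x : ℝ) + 2 * G) * G ≤ 3 * x * G := by nlinarith
    nlinarith
  have hrange : ∀ n ∈ B.image f, u0 ≤ n ^ 2 ∧ n ^ 2 ≤ u0 + W := by
    intro n hn
    obtain ⟨h1, h2⟩ := hg n hn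
    have h3 := abs_le.mp (hf _ h1)
    rw [h2] at h3
    have h4 : ((g n : ℕ) : ℝ) ≤ x := by exact_mod_cast hBx _ h1
    have h5 : (0 : ℝ) ≤ ((g n : ℕ) : ℝ) := Nat.cast_nonneg _
    constructor
    · rw [hu0, Nat.ceil_le, div_le_iff₀ hα0]
      push_cast
      linarith [h3.2]
    · have h6 : (n : ℝ) ^ 2 ≤ (-G - β) / α + (x + 2 * G) / α := by
        rw [← add_div, le_div_iff₀ hα0]
        linarith [h3.1]
      have h7 : (-G - β) / α ≤ (u0 : ℝ) := Nat.le_ceil _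
      have h8 : (n : ℝ) ^ 2 ≤ u0 + W := by linarith
      exact_mod_cast h8
  set a0 : ℕ := Nat.sqrt u0 with ha0
  set bb : ℕ := Nat.sqrt W with hbb
  have hW1 : 1 ≤ W := by omega
  have hbW : bb ≤ W := Nat.sqrt_le_self W
  have hb2 : bb * bb ≤ W := Nat.sqrt_le W
  refine ⟨B.image f, g, a0, bb + 2, 2 * u0, 2 * W + 1, ?_, ?_, ?_, ?_, ?_, ?_, ?_, ?_⟩
  · intro n hn
    exact (hg n hn).1
  · intro n hn n' hn' h
    rw [← (hg n hn).2, ← (hg n' hn').2, h]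
  · intro n hn
    have h1 := hf _ (hg n hn).1
    rwa [(hg n hn).2] at h1
  · have h1 : ∀ n ∈ B.image f, (B.filter (fun a => f a = n)).card ≤ ⌊3 * G⌋₊ := by
      intro n hn
      have h2 : B.filter (fun a => f a = n) ⊆
          Finset.Icc ⌈α * n ^ 2 + β - G⌉₊ ⌊α * n ^ 2 + β + G⌋₊ := by
        intro a ha
        rw [Finset.mem_filter] at ha
        have h3 := abs_le.mp (hf a ha.1)
        rw [ha.2] at h3
        rw [Finset.mem_Icc]
        exact ⟨Nat.ceil_le.mpr (by linarith [h3.2]), Nat.le_floor (by linarith [h3.2])⟩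
      refine (Finset.card_le_card h2).trans (Nat.le_floor ?_)
      rw [Nat.card_Icc]
      have hpos : 0 ≤ α * (n : ℝ) ^ 2 + β + G := by
        have h3 := abs_le.mp (hf _ (hg n hn).1)
        rw [(hg n hn).2] at h3
        have h5 : (0 : ℝ) ≤ ((g n : ℕ) : ℝ) := Nat.cast_nonneg _
        linarith [h3.2]
      by_cases hle : ⌈α * (n : ℝ) ^ 2 + β - G⌉₊ ≤ ⌊α * (n : ℝ) ^ 2 + β + G⌋₊ + 1
      · rw [Nat.cast_sub hle]
        have h3 := Nat.le_ceil (α * (n : ℝ) ^ 2 + β - G)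
        have h4 : ((⌊α * (n : ℝ) ^ 2 + β + G⌋₊ : ℕ) : ℝ) ≤ α * n ^ 2 + β + G :=
          Nat.floor_le hpos
        push_cast
        linarith
      · rw [Nat.sub_eq_zero_of_le (by omega)]
        push_cast
        linarith
    have h2 := Finset.card_le_mul_card_image B ⌊3 * G⌋₊ h1
    have h3 : (B.card : ℝ) ≤ (⌊3 * G⌋₊ : ℕ) * ((B.image f).card : ℝ) := by exact_mod_cast h2
    refine h3.trans (mul_le_mul_of_nonneg_right (Nat.floor_le (by linarith)) (Nat.cast_nonneg _))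
  · intro n hn
    obtain ⟨h1, h2⟩ := hrange n hn
    rw [Finset.mem_Ico]
    constructor
    · rw [ha0]
      exact Nat.sqrt_le_sqrt h1 |>.trans (le_of_eq (Nat.sqrt_eq' n))
    · by_contra hcon
      push Not at hcon
      have h3 : u0 < (a0 + 1) * (a0 + 1) := Nat.lt_succ_sqrt u0
      have h4 : W < (bb + 1) * (bb + 1) := Nat.lt_succ_sqrt W
      have h5 : (a0 + (bb + 2)) * (a0 + (bb + 2)) ≤ n * n := Nat.mul_le_mul hcon hcon
      nlinarith
  · intro n hn m hm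
    obtain ⟨h1, h2⟩ := hrange n hn
    obtain ⟨h3, h4⟩ := hrange m hm
    rw [Finset.mem_Ico]
    omega
  · omega
  · have h1 : ((bb + 2 : ℕ) : ℝ) ^ 2 ≤ 9 * W := by
      have : (bb + 2) ^ 2 ≤ 9 * W := by nlinarith
      exact_mod_cast this
    have h2 : ((2 * W + 1 : ℕ) : ℝ) ≤ 3 * W := by
      have : 2 * W + 1 ≤ 3 * W := by omega
      exact_mod_cast this
    calc 8 * ((bb + 2 : ℕ) : ℝ) ^ 2 * ((2 * W + 1 : ℕ) : ℝ)
        ≤ 8 * (9 * W) * (3 * W) := by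
          refine mul_le_mul (mul_le_mul_of_nonneg_left h1 (by norm_num)) h2 (Nat.cast_nonneg _)
            (by positivity)
      _ = 216 * (W : ℝ) ^ 2 := by ring
      _ ≤ 216 * (4 * G * x) ^ 2 := by
          refine mul_le_mul_of_nonneg_left ?_ (by norm_num)
          exact pow_le_pow_left₀ (Nat.cast_nonneg _) hWle 2
      _ = 3456 * G ^ 2 * (x : ℝ) ^ 2 := by ring

end Pool.Agent.Q247.ET
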