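import Mathlib
import Pool.Agent.Q247.ET.Mas

/-!
# Asymptotic form
-/

set_option autoImplicit false

namespace Pool.Agent.Q247.ET

open Finset Filter Topology Real Pool.Agent.H397R2.NS

open Pool.Agent.H313R2 (S1 mem_S1 S1_card_ge)

/-- A prime number as an element of `Nat.Primes`. -/
def mkP (p : ℕ) (h : p.Prime) : Nat.Primes := ⟨p, h⟩

lemma primes_list : ∀ᶠ L : ℝ in atTop, ∃ l : List Nat.Primes, l.Nodup ∧
    (∀ p ∈ l, (p : ℕ) % 4 = 1) ∧ (∀ p ∈ l, 29 ≤ (p : ℕ)) ∧ (PP l : ℝ) ≤ exp (L / 8) ∧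
    L / (8 * log L) - 4 ≤ l.length := by
  classical
  filter_upwards [prime_param, eventually_ge_atTop (3 : ℝ)] with L hL hL3
  obtain ⟨y, hy1, hy2, hy3⟩ := hL
  have hlogL : 0 < log L := log_pos (by linarith)
  have ht0 : 0 ≤ L / (8 * log L) := by positivity
  set N : ℕ := ⌊L / (8 * log L)⌋₊ with hN
  have hN1 : (N : ℝ) ≤ L / (8 * log L) := Nat.floor_le ht0
  have hN2 : L / (8 * log L) < N + 1 := Nat.lt_floor_add_one _
  have hNc : N ≤ (S1 y).card := by exact_mod_cast hN1.trans hy2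
  set T : Finset ℕ := (S1 y).filter fun p => 29 ≤ p with hT
  have hTc : N - 3 ≤ T.card := by
    have h1 : S1 y \ T ⊆ ({5, 13, 17} : Finset ℕ) := by
      intro p hp
      rw [Finset.mem_sdiff, hT, Finset.mem_filter, mem_S1] at hp
      obtain ⟨⟨_, h2, h3⟩, h4⟩ := hp
      have h5 : p < 29 := by
        by_contra h
        exact h4 ⟨⟨‹_›, h2, h3⟩, by omega⟩
      clear h4
      interval_cases p <;> first | decide | (exfalso; revert h2; decide) | (exfalso; revert h3; decide)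
    have h2 : (S1 y \ T).card ≤ 3 := (Finset.card_le_card h1).trans (by decide)
    have h3 := Finset.card_sdiff_add_card_eq_card (Finset.filter_subset (fun p => 29 ≤ p) (S1 y))
    rw [← hT] at h3
    omega
  obtain ⟨U, hU1, hU2⟩ := Finset.exists_subset_card_eq hTc
  have hUT : ∀ p ∈ U, p.Prime ∧ p % 4 = 1 ∧ 29 ≤ p ∧ p ≤ y := by
    intro p hp
    have := hU1 hp
    rw [hT, Finset.mem_filter, mem_S1] at this
    exact ⟨this.1.2.1, this.1.2.2, this.2, this.1.1.2⟩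
  set l : List Nat.Primes := U.attach.toList.map fun p => mkP p.1 (hUT p.1 p.2).1
    with hl
  have hmem : ∀ p ∈ l, (p : ℕ) ∈ U := by
    intro p hp
    rw [hl, List.mem_map] at hp
    obtain ⟨q, _, rfl⟩ := hp
    exact q.2
  have hlen : l.length = N - 3 := by
    rw [hl, List.length_map, Finset.length_toList, Finset.card_attach, hU2]
  refine ⟨l, ?_, ?_, ?_, ?_, ?_⟩
  · rw [hl]
    refine List.Nodup.map ?_ (Finset.nodup_toList _)
    intro p q h
    exact Subtype.ext (congrArg (fun r : Nat.Primes => (r : ℕ)) h)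
  · intro p hp
    exact (hUT _ (hmem p hp)).2.1
  · intro p hp
    exact (hUT _ (hmem p hp)).2.2.1
  · have h1 : PP l ≤ y ^ l.length := by
      unfold PP
      have := List.prod_le_pow_card (l.map fun p : Nat.Primes => (p : ℕ)) y (by
        intro q hq
        rw [List.mem_map] at hq
        obtain ⟨p, hp, rfl⟩ := hq
        exact (hUT _ (hmem p hp)).2.2.2)
      rwa [List.length_map] at this
    have h2 : y ^ l.length ≤ y ^ N := Nat.pow_le_pow_right hy1 (by omega)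
    have h3 : (PP l : ℝ) ≤ ((y ^ N : ℕ) : ℝ) := by exact_mod_cast h1.trans h2
    exact h3.trans (hy3 N hN1)
  · rw [hlen]
    have h1 : (N : ℝ) - 3 ≤ ((N - 3 : ℕ) : ℝ) := by
      rcases le_total 3 N with h | h
      · rw [Nat.cast_sub h]
        push_cast
        exact le_rfl
      · rw [Nat.sub_eq_zero_of_le h]
        have : (N : ℝ) ≤ 3 := by exact_mod_cast h
        push_cast
        linarith
    linarith

/-- `log x / log log x`. -/
noncomputable def ps (x : ℝ) : ℝ := log x / log (log x)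

lemma pow_ge (M : ℕ) : exp (3 / 50 * M) ≤ (17 / 16 : ℝ) ^ M := by
  have h1 : exp (3 / 50 : ℝ) ≤ 17 / 16 := by
    have h2 : exp (3 / 50 : ℝ) ^ 50 ≤ (17 / 16 : ℝ) ^ 50 := by
      rw [← exp_nat_mul]
      have h3 : exp ((50 : ℕ) * (3 / 50 : ℝ)) = exp 1 ^ 3 := by
        rw [← exp_nat_mul]
        congr 1
        norm_num
      rw [h3]
      calc exp 1 ^ 3 ≤ (2.7182818286 : ℝ) ^ 3 :=
            pow_le_pow_left₀ (exp_pos 1).le exp_one_lt_d9.le 3
        _ ≤ (17 / 16 : ℝ) ^ 50 := by norm_num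
    exact le_of_pow_le_pow_left₀ (by norm_num) (by norm_num) h2
  calc exp (3 / 50 * M) = exp (3 / 50 : ℝ) ^ M := by rw [← exp_nat_mul]; ring_nf
    _ ≤ (17 / 16 : ℝ) ^ M := pow_le_pow_left₀ (exp_pos _).le h1 M

/-- One quadratic sequence. -/
lemma one_seq : ∀ᶠ x : ℕ in atTop, ∀ (A : Set ℕ) (α β : ℝ), (exp (1 / 2500 * ps x))⁻¹ ≤ α →
    sqrt x * exp (-(1 / 1250 * ps x)) ≤ ({a : ℕ | a ∈ A ∧ a ≤ x ∧
      ∃ n : ℕ, |(a : ℝ) - (α * n ^ 2 + β)| ≤ exp (1 / 2500 * ps x)}.ncard : ℝ) →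
    ∃ s : ℕ, s ≤ 2 * x ∧ exp (1 / 2500 * ps x) ≤ rep A s := by
  classical
  have hlogX : Tendsto (fun X : ℕ => log (X : ℝ)) atTop atTop :=
    tendsto_log_atTop.comp tendsto_natCast_atTop_atTop
  have hpsi : Tendsto (fun X : ℕ => ps (X : ℝ)) atTop atTop := psi_tendsto.comp hlogX
  filter_upwards [hlogX.eventually primes_list, hlogX.eventually (eventually_ge_atTop (20 : ℝ)),
    hpsi.eventually (eventually_ge_atTop (20000 : ℝ)), eventually_ge_atTop 3]
    with x hE1 hE2 hE3 hx3 A α β hα hcount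
  obtain ⟨l, hl1, hl2, hl3, hl4, hl5⟩ := hE1
  set L : ℝ := log (x : ℝ) with hL
  have hps : ps (x : ℝ) = L / log L := rfl
  set Ψ : ℝ := ps (x : ℝ) with hΨ
  set G : ℝ := exp (1 / 2500 * Ψ) with hG
  have hxr : (3 : ℝ) ≤ x := by exact_mod_cast hx3
  have hx0 : (0 : ℝ) < x := by linarith
  have hlogL : 1 ≤ log L := by
    rw [le_log_iff_exp_le (by linarith)]
    linarith [exp_one_lt_d9]
  have hΨL : Ψ ≤ L := by
    rw [hps, div_le_iff₀ (by linarith)]
    nlinarith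
  have hG1 : 1 ≤ G := one_le_exp (by linarith)
  have hG0 : 0 < G := by linarith
  have hexpL : exp L = x := exp_log hx0
  have hGx : G ≤ x := by
    rw [hG, ← hexpL]
    exact exp_le_exp.mpr (by linarith)
  have hsx : exp (L / 2) = sqrt x := by
    symm
    rw [sqrt_eq_iff_eq_sq (by positivity) (exp_pos _).le, ← exp_nat_mul, ← hexpL]
    congr 1
    push_cast
    ring
  have hfin : {a : ℕ | a ∈ A ∧ a ≤ x ∧ ∃ n : ℕ, |(a : ℝ) - (α * n ^ 2 + β)| ≤ G}.Finite := by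
    refine (Set.finite_Iic x).subset ?_
    rintro a ⟨_, h, _⟩
    exact h
  rw [Set.ncard_eq_toFinset_card _ hfin] at hcount
  obtain ⟨S, f, a0, Y, u, Z, hf1, hf2, hf3, hcard, hS1, hS2, hYZ, hYZ2⟩ :=
    extract2 α β G x hα hG1 hGx hfin.toFinset
      (fun b hb => ((Set.Finite.mem_toFinset hfin).mp hb).2.1)
      (fun b hb => ((Set.Finite.mem_toFinset hfin).mp hb).2.2)
  have hfA : ∀ n ∈ S, f n ∈ A ∧ f n ≤ x := fun n hn =>
    ⟨((Set.Finite.mem_toFinset hfin).mp (hf1 n hn)).1,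
      ((Set.Finite.mem_toFinset hfin).mp (hf1 n hn)).2.1⟩
  have hG2 : exp (-(1 / 1250 * Ψ)) = (G ^ 2)⁻¹ := by
    rw [hG, ← exp_nat_mul, ← exp_neg]
    congr 1
    push_cast
    ring
  -- the size of `S`
  have hSc : sqrt x ≤ 3 * G ^ 3 * S.card := by
    have h1 : sqrt x * (G ^ 2)⁻¹ ≤ 3 * G * S.card := by
      rw [← hG2]
      exact hcount.trans hcard
    rw [← div_eq_mul_inv, div_le_iff₀ (by positivity)] at h1
    calc sqrt x ≤ 3 * G * S.card * G ^ 2 := h1
      _ = 3 * G ^ 3 * S.card := by ring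
  have hSY : S.card ≤ Y := by
    have := Finset.card_le_card hS1
    rwa [Nat.card_Ico, Nat.add_sub_cancel_left] at this
  have hPS : (PP l : ℝ) ≤ S.card := by
    refine hl4.trans ?_
    have h1 : exp (L / 8) * (3 * G ^ 3) ≤ sqrt x := by
      rw [← hsx, hG, ← exp_nat_mul]
      have h3 : (3 : ℝ) ≤ exp (L / 8) := by
        have := add_one_le_exp (L / 8)
        linarith
      calc exp (L / 8) * (3 * exp ((3 : ℕ) * (1 / 2500 * Ψ)))
          ≤ exp (L / 8) * (exp (L / 8) * exp ((3 : ℕ) * (1 / 2500 * Ψ))) := by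
            refine mul_le_mul_of_nonneg_left ?_ (exp_pos _).le
            exact mul_le_mul_of_nonneg_right h3 (exp_pos _).le
        _ = exp (L / 8 + (L / 8 + (3 : ℕ) * (1 / 2500 * Ψ))) := by rw [exp_add, exp_add]
        _ ≤ exp (L / 2) := by
            refine exp_le_exp.mpr ?_
            push_cast
            linarith
    have h2 : exp (L / 8) * (3 * G ^ 3) ≤ S.card * (3 * G ^ 3) := by linarith
    exact le_of_mul_le_mul_right h2 (by positivity)
  have hPY : PP l ≤ Y := by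
    have h1 : (PP l : ℝ) ≤ Y := hPS.trans (by exact_mod_cast hSY)
    exact_mod_cast h1
  -- many representations as a sum of two squares
  have hk : ∃ k : ℕ, 5 * G ^ 2 ≤ (((S ×ˢ S).filter (fun z => z.1 ^ 2 + z.2 ^ 2 = k)).card : ℝ) := by
    by_contra hcon
    push Not at hcon
    have hR : ∀ k, ((S ×ˢ S).filter (fun z => z.1 ^ 2 + z.2 ^ 2 = k)).card ≤ ⌊5 * G ^ 2⌋₊ :=
      fun k => Nat.le_floor (hcon k).le
    have h1 := key l hl1 hl2 hl3 a0 Y u Z _ S hS1 hS2 hPY (hPY.trans hYZ) hR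
    have h2 : ((⌊5 * G ^ 2⌋₊ : ℕ) : ℝ) ≤ 5 * G ^ 2 := Nat.floor_le (by positivity)
    have h3 : (S.card : ℝ) ^ 4 * (17 / 16) ^ l.length ≤ 17280 * G ^ 4 * (x : ℝ) ^ 2 := by
      refine h1.trans ?_
      calc 8 * (Y : ℝ) ^ 2 * Z * (⌊5 * G ^ 2⌋₊ : ℕ) ≤ (3456 * G ^ 2 * (x : ℝ) ^ 2) * (5 * G ^ 2) :=
            mul_le_mul hYZ2 h2 (Nat.cast_nonneg _) (by positivity)
        _ = 17280 * G ^ 4 * (x : ℝ) ^ 2 := by ring
    have h4 : (x : ℝ) ^ 2 ≤ 81 * G ^ 12 * (S.card : ℝ) ^ 4 := by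
      calc (x : ℝ) ^ 2 = (sqrt x) ^ 4 := by
            rw [show (sqrt x) ^ 4 = ((sqrt x) ^ 2) ^ 2 by ring, sq_sqrt hx0.le]
        _ ≤ (3 * G ^ 3 * S.card) ^ 4 := pow_le_pow_left₀ (sqrt_nonneg _) hSc 4
        _ = 81 * G ^ 12 * (S.card : ℝ) ^ 4 := by ring
    have h5 : (17 / 16 : ℝ) ^ l.length ≤ 1399680 * G ^ 16 := by
      have h6 : (x : ℝ) ^ 2 * (17 / 16 : ℝ) ^ l.length ≤ (1399680 * G ^ 16) * (x : ℝ) ^ 2 := by
        calc (x : ℝ) ^ 2 * (17 / 16 : ℝ) ^ l.length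
            ≤ (81 * G ^ 12 * (S.card : ℝ) ^ 4) * (17 / 16 : ℝ) ^ l.length :=
              mul_le_mul_of_nonneg_right h4 (by positivity)
          _ = 81 * G ^ 12 * ((S.card : ℝ) ^ 4 * (17 / 16 : ℝ) ^ l.length) := by ring
          _ ≤ 81 * G ^ 12 * (17280 * G ^ 4 * (x : ℝ) ^ 2) :=
              mul_le_mul_of_nonneg_left h3 (by positivity)
          _ = (1399680 * G ^ 16) * (x : ℝ) ^ 2 := by ring
      rw [mul_comm] at h6
      exact le_of_mul_le_mul_right h6 (by positivity)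
    have h7 := (pow_ge l.length).trans h5
    have h8 : (1399680 : ℝ) ≤ exp 15 := by
      have h9 : (2.7 : ℝ) ^ 15 ≤ exp 1 ^ 15 :=
        pow_le_pow_left₀ (by norm_num) (by linarith [exp_one_gt_d9]) 15
      have h10 : exp 1 ^ 15 = exp 15 := by
        rw [← exp_nat_mul]
        norm_num
      rw [h10] at h9
      refine le_trans (by norm_num) h9
    have h9 : exp (3 / 50 * l.length) ≤ exp (15 + 16 * (1 / 2500 * Ψ)) := by
      refine h7.trans ?_
      rw [exp_add, hG, ← exp_nat_mul]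
      refine mul_le_mul h8 ?_ (exp_pos _).le (exp_pos _).le
      push_cast
      exact le_rfl
    rw [exp_le_exp] at h9
    have h10 : L / (8 * log L) = Ψ / 8 := by
      rw [hps]
      field_simp
    rw [h10] at hl5
    linarith
  obtain ⟨k, hk⟩ := hk
  obtain ⟨s, hs1, hs2⟩ := transfer2 A α β G x hG0.le S f hf2 (fun n hn => (hfA n hn).1)
    (fun n hn => (hfA n hn).2) hf3 k (5 * G ^ 2) (by positivity) hk
  refine ⟨s, hs1, le_trans ?_ hs2⟩
  rw [le_div_iff₀ (by positivity)]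
  nlinarith

end Pool.Agent.Q247.ET
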