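import Mathlib
import Pool.Agent.Q247.ET.Asy

/-!
# Infinite sets
-/

set_option autoImplicit false

namespace Pool.Agent.Q247.ET

open Finset Filter Topology Real Pool.Agent.H397R2.NS

lemma tend_log : Tendsto (fun X : ℕ => log (X : ℝ)) atTop atTop :=
  tendsto_log_atTop.comp tendsto_natCast_atTop_atTop

lemma tend_ps : Tendsto (fun X : ℕ => ps (X : ℝ)) atTop atTop := psi_tendsto.comp tend_log

/-- Several quadratic sequences. -/
lemma many_seq : ∀ᶠ x : ℕ in atTop, ∀ (A : Set ℕ) (F : Finset (ℝ × ℝ)),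
    (F.card : ℝ) ≤ exp (1 / 2500 * ps x) → (∀ f ∈ F, (exp (1 / 2500 * ps x))⁻¹ ≤ f.1) →
    (∀ a ∈ A, a ≤ x → ∃ f ∈ F, ∃ n : ℕ,
      |(a : ℝ) - (f.1 * n ^ 2 + f.2)| ≤ exp (1 / 2500 * ps x)) →
    sqrt x * exp (-(1 / 2500 * ps x)) ≤ ({a : ℕ | a ∈ A ∧ a ≤ x}.ncard : ℝ) →
    ∃ s : ℕ, s ≤ 2 * x ∧ exp (1 / 2500 * ps x) ≤ rep A s := by
  classical
  filter_upwards [one_seq, eventually_ge_atTop 1] with x hx hx1 A F hF1 hF2 hcov hcount
  set G : ℝ := exp (1 / 2500 * ps x) with hG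
  have hx0 : (0 : ℝ) < x := by exact_mod_cast hx1
  have hkey : ∃ f ∈ F, sqrt x * exp (-(1 / 1250 * ps x)) ≤ ({a : ℕ | a ∈ A ∧ a ≤ x ∧
      ∃ n : ℕ, |(a : ℝ) - (f.1 * n ^ 2 + f.2)| ≤ G}.ncard : ℝ) := by
    by_contra hcon
    push Not at hcon
    have hpos : 0 < sqrt x * exp (-(1 / 2500 * ps x)) :=
      mul_pos (sqrt_pos.mpr hx0) (exp_pos _)
    have hFne : F.Nonempty := by
      rw [Finset.nonempty_iff_ne_empty]
      rintro rfl
      have h1 : {a : ℕ | a ∈ A ∧ a ≤ x} = ∅ := by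
        ext a
        simp only [Set.mem_ofPred_eq, Set.mem_empty_iff_false, iff_false]
        rintro ⟨ha, hax⟩
        obtain ⟨f, hf, _⟩ := hcov a ha hax
        simp at hf
      rw [h1, Set.ncard_empty, Nat.cast_zero] at hcount
      linarith
    have hfin : ∀ f : ℝ × ℝ, {a : ℕ | a ∈ A ∧ a ≤ x ∧
        ∃ n : ℕ, |(a : ℝ) - (f.1 * n ^ 2 + f.2)| ≤ G}.Finite := fun f =>
      (Set.finite_Iic x).subset fun a ha => ha.2.1
    have h6 : {a : ℕ | a ∈ A ∧ a ≤ x} ⊆ (F.biUnion fun f => (hfin f).toFinset : Finset ℕ) := by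
      rintro a ⟨ha, hax⟩
      obtain ⟨f, hf, h8⟩ := hcov a ha hax
      rw [Finset.mem_coe, Finset.mem_biUnion]
      exact ⟨f, hf, (Set.Finite.mem_toFinset _).mpr ⟨ha, hax, h8⟩⟩
    have h5 : ({a : ℕ | a ∈ A ∧ a ≤ x}.ncard : ℝ) ≤ ∑ f ∈ F, ({a : ℕ | a ∈ A ∧ a ≤ x ∧
        ∃ n : ℕ, |(a : ℝ) - (f.1 * n ^ 2 + f.2)| ≤ G}.ncard : ℝ) := by
      have h9 : {a : ℕ | a ∈ A ∧ a ≤ x}.ncard ≤ ∑ f ∈ F, {a : ℕ | a ∈ A ∧ a ≤ x ∧
          ∃ n : ℕ, |(a : ℝ) - (f.1 * n ^ 2 + f.2)| ≤ G}.ncard := by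
        refine (Set.ncard_le_ncard h6 (Finset.finite_toSet _)).trans ?_
        rw [Set.ncard_coe_finset]
        refine Finset.card_biUnion_le.trans (Finset.sum_le_sum fun f _ => ?_)
        rw [Set.ncard_eq_toFinset_card _ (hfin f)]
      exact_mod_cast h9
    have h7 := Finset.sum_lt_sum_of_nonempty hFne hcon
    rw [Finset.sum_const, nsmul_eq_mul] at h7
    have h8 : (F.card : ℝ) * (sqrt x * exp (-(1 / 1250 * ps x))) ≤
        sqrt x * exp (-(1 / 2500 * ps x)) := by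
      calc (F.card : ℝ) * (sqrt x * exp (-(1 / 1250 * ps x)))
          ≤ G * (sqrt x * exp (-(1 / 1250 * ps x))) :=
            mul_le_mul_of_nonneg_right hF1 (by positivity)
        _ = sqrt x * exp (1 / 2500 * ps x + -(1 / 1250 * ps x)) := by
            rw [hG, exp_add]; ring
        _ = sqrt x * exp (-(1 / 2500 * ps x)) := by ring_nf
    linarith
  obtain ⟨f, hf, hc⟩ := hkey
  exact hx A f.1 f.2 (hF2 f hf) hc

lemma ps_mono : ∀ᶠ x : ℕ in atTop, ∀ a : ℕ, a ≤ x → ps a ≤ ps x := by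
  have h1 : ∀ᶠ x : ℕ in atTop, ∀ a ∈ Finset.range 16, ps (a : ℝ) ≤ ps (x : ℝ) := by
    rw [Filter.eventually_all_finset]
    intro a _
    exact tend_ps.eventually (eventually_ge_atTop _)
  filter_upwards [h1, tend_log.eventually (eventually_ge_atTop (3 : ℝ))] with x hx1 hx2 a hax
  by_cases h : a < 16
  · exact hx1 a (Finset.mem_range.mpr h)
  · have ha16 : (16 : ℝ) ≤ a := by exact_mod_cast (by omega : 16 ≤ a)
    have h2 := psi_le (s := (a : ℝ)) (L := log (x : ℝ)) (K := 1) le_rfl hx2 ha16 (by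
      rw [one_mul]
      exact log_le_log (by linarith) (by exact_mod_cast hax))
    rw [one_mul] at h2
    exact h2

/-- `ps s ≤ 2 ps x` for `16 ≤ s ≤ 2 x`. -/
lemma ps_two : ∀ᶠ x : ℕ in atTop, ∀ s : ℕ, 16 ≤ s → s ≤ 2 * x → ps s ≤ 2 * ps x := by
  filter_upwards [tend_log.eventually (eventually_ge_atTop (3 : ℝ)), eventually_ge_atTop 16]
    with x hx1 hx2 s hs hsx
  have hs16 : (16 : ℝ) ≤ s := by exact_mod_cast hs
  have hxr : (16 : ℝ) ≤ x := by exact_mod_cast hx2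
  have hsr : (s : ℝ) ≤ 2 * x := by exact_mod_cast hsx
  refine psi_le (by norm_num) hx1 hs16 ?_
  calc log (s : ℝ) ≤ log ((x : ℝ) ^ 2) := log_le_log (by linarith) (by nlinarith)
    _ = 2 * log (x : ℝ) := by rw [log_pow]; norm_num

lemma inf_main (A : Set ℕ) (hA : A.Infinite)
    (hcov : ∀ᶠ x : ℕ in atTop, ∃ F : Finset (ℝ × ℝ), (F.card : ℝ) ≤ exp (1 / 2500 * ps x) ∧
      (∀ f ∈ F, (exp (1 / 2500 * ps x))⁻¹ ≤ f.1) ∧ ∀ a ∈ A, a ≤ x → ∃ f ∈ F, ∃ n : ℕ,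
        |(a : ℝ) - (f.1 * n ^ 2 + f.2)| ≤ exp (1 / 2500 * ps x))
    (hgrow : ∃ᶠ n : ℕ in atTop,
      (Nat.nth (· ∈ A) (n - 1) : ℝ) ≤ n ^ 2 * exp (1 / 5000 * ps n)) :
    ∃ᶠ s : ℕ in atTop, exp (1 / 5000 * ps s) ≤ rep A s := by
  classical
  have hinf : (Set.ofPred (· ∈ A)).Infinite := hA
  rw [frequently_atTop]
  intro N
  have hE : ∀ᶠ x : ℕ in atTop, (5000 * (N + 17) : ℝ) ≤ ps x :=
    tend_ps.eventually (eventually_ge_atTop _)
  obtain ⟨X0, hX0⟩ := eventually_atTop.mp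
    (many_seq.and (hcov.and (ps_mono.and (ps_two.and (hE.and (eventually_ge_atTop 17))))))
  obtain ⟨n, hn, hn'⟩ := (frequently_atTop.mp hgrow) (X0 + 1)
  set x : ℕ := Nat.nth (· ∈ A) (n - 1) with hx
  have hnx : n - 1 ≤ x := (Nat.nth_strictMono hinf).id_le (n - 1)
  have hn1 : 1 ≤ n := by omega
  have hxX0 : X0 ≤ x := by omega
  obtain ⟨h1, ⟨F, hF1, hF2, hF3⟩, h3, h4, h5, h6⟩ := hX0 x hxX0
  obtain ⟨_, _, h3', _, _, _⟩ := hX0 (x + 1) (by omega)
  have hcard : n ≤ {a : ℕ | a ∈ A ∧ a ≤ x}.ncard := by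
    have h5 : ((Finset.range n).image (Nat.nth (· ∈ A)) : Set ℕ) ⊆ {a : ℕ | a ∈ A ∧ a ≤ x} := by
      intro a ha
      rw [Finset.mem_coe, Finset.mem_image] at ha
      obtain ⟨k, hk, rfl⟩ := ha
      rw [Finset.mem_range] at hk
      refine ⟨Nat.nth_mem_of_infinite hinf k, ?_⟩
      exact (Nat.nth_strictMono hinf).monotone (by omega : k ≤ n - 1)
    have h6 := Set.ncard_le_ncard h5 ((Set.finite_Iic x).subset fun a ha => ha.2)
    rw [Set.ncard_coe_finset, Finset.card_image_of_injective _ (Nat.nth_injective hinf),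
      Finset.card_range] at h6
    exact h6
  have hpn : ps n ≤ 2 * ps x := (h3' n (by omega)).trans (h4 (x + 1) (by omega) (by omega))
  have hps0 : 0 ≤ ps (x : ℝ) := le_trans (by positivity) h5
  have hcount : sqrt x * exp (-(1 / 2500 * ps x)) ≤ ({a : ℕ | a ∈ A ∧ a ≤ x}.ncard : ℝ) := by
    have h7 : sqrt (x : ℝ) ≤ n * exp (1 / 5000 * ps x) := by
      rw [sqrt_le_left (by positivity), mul_pow, ← exp_nat_mul]
      refine hn'.trans (mul_le_mul_of_nonneg_left (exp_le_exp.mpr ?_) (by positivity))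
      push_cast
      linarith
    calc sqrt x * exp (-(1 / 2500 * ps x)) ≤ (n * exp (1 / 5000 * ps x)) * exp (-(1 / 2500 * ps x)) :=
          mul_le_mul_of_nonneg_right h7 (exp_pos _).le
      _ = n * exp (1 / 5000 * ps x + -(1 / 2500 * ps x)) := by rw [exp_add]; ring
      _ ≤ n * 1 := by
          refine mul_le_mul_of_nonneg_left ?_ (Nat.cast_nonneg _)
          rw [exp_le_one_iff]
          linarith
      _ ≤ _ := by
          rw [mul_one]
          exact_mod_cast hcard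
  obtain ⟨s, hs1, hs2⟩ := h1 A F hF1 hF2 hF3 hcount
  have hlow : exp (1 / 5000 * ps x) ≤ rep A s :=
    (exp_le_exp.mpr (by linarith)).trans hs2
  have hs16 : N + 16 ≤ s := by
    have h2 : 1 / 5000 * ps x + 1 ≤ exp (1 / 5000 * ps x) := add_one_le_exp _
    have h3 : (rep A s : ℝ) ≤ s + 1 := by exact_mod_cast rep_le A s
    have h4 : ((N + 16 : ℕ) : ℝ) ≤ s := by push_cast; linarith
    exact_mod_cast h4
  refine ⟨s, by omega, le_trans (exp_le_exp.mpr ?_) hs2⟩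
  have := h4 s (by omega) hs1
  linarith

end Pool.Agent.Q247.ET
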